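import Pool.Agent.Q278.QDel3

set_option autoImplicit false

/-!
# A congruence modulo `[p]²` for sums of products of `q`-Delannoy numbers

All expressions live in the field `ℚ(q) = RatFunc ℚ`, with `q = RatFunc.X`; the ring `ℤ[q, 1/q]` is
the subring `L` generated by `q` and `1/q`.
-/

namespace Pool.Agent.Results.MP_c68aab_nt.Full

open Finset

/-- The Gaussian binomial coefficient `∏_{i=1}^{k} (1 - x^(n-i+1)) / (1 - x^i)` (it is `0` for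
`n < k`, since then the factor with `i = n + 1` vanishes). -/
noncomputable def gauss (x : RatFunc ℚ) (n k : ℕ) : RatFunc ℚ :=
  ∏ i ∈ Icc 1 k, (1 - x ^ (n + 1 - i)) / (1 - x ^ i)

/-- The `q`-Delannoy number with base `x`. -/
noncomputable def D (x : RatFunc ℚ) (m n : ℕ) : RatFunc ℚ :=
  ∑ j ∈ range (n + 1), x ^ (j * (j - 1) / 2) * gauss x n j * gauss x (m + n - j) n

/-- The `q`-integer `[n] = (1 - q^n) / (1 - q)`. -/
noncomputable def br (n : ℕ) : RatFunc ℚ := (1 - RatFunc.X ^ n) / (1 - RatFunc.X)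

/-- The sum `S_p(m) = ∑_{j=0}^{p-1} [2j+1] q^(-j) D_q(m,j) D_{1/q}(m,j)`. -/
noncomputable def S (p m : ℕ) : RatFunc ℚ :=
  ∑ j ∈ range p, br (2 * j + 1) * (RatFunc.X⁻¹) ^ j * D RatFunc.X m j * D RatFunc.X⁻¹ m j

/-- The ring `ℤ[q, 1/q]`. -/
noncomputable def L : Subring (RatFunc ℚ) := Subring.closure {RatFunc.X, RatFunc.X⁻¹}

/-- `A ≡ B` modulo `[p]²` in the ring `ℤ[q, 1/q]`. -/
def Cong (p : ℕ) (A B : RatFunc ℚ) : Prop := A ∈ L ∧ B ∈ L ∧ ∃ T ∈ L, A - B = br p ^ 2 * T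

theorem gauss_eq (x : RatFunc ℚ) (n k : ℕ) : gauss x n k = Q278.QDel.gb x n k := by
  unfold gauss Q278.QDel.gb
  rw [← Finset.Ico_add_one_right_eq_Icc, Finset.prod_Ico_eq_prod_range]
  apply prod_congr (by simp)
  intro i _
  rw [show n + 1 - (1 + i) = n - i by omega, add_comm 1 i]

theorem D_eq (x : RatFunc ℚ) (m n : ℕ) : D x m n = Q278.QDel.D x m n := by
  unfold D Q278.QDel.D
  simp only [gauss_eq]

theorem S_eq (p m : ℕ) : S p m = Q278.QDel.Z RatFunc.X m p / (1 - RatFunc.X) := by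
  unfold S Q278.QDel.Z br
  rw [sum_div]
  apply sum_congr rfl
  intro j _
  rw [D_eq, D_eq]
  ring

theorem one_sub_ne {i : ℕ} (hi : 0 < i) : (1 : RatFunc ℚ) - RatFunc.X ^ i ≠ 0 :=
  Q278.Blk.one_sub_q_ne hi

theorem X_mem : (RatFunc.X : RatFunc ℚ) ∈ L := Q278.Laurent.q_mem

theorem Xi_mem : (RatFunc.X : RatFunc ℚ)⁻¹ ∈ L := Q278.Laurent.qi_mem'

theorem br_mem (n : ℕ) : br n ∈ L := by
  have h1 : (1 : RatFunc ℚ) - RatFunc.X ≠ 0 := by simpa using one_sub_ne one_pos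
  have h : br n = ∑ i ∈ range n, (RatFunc.X : RatFunc ℚ) ^ i := by
    unfold br
    rw [div_eq_iff h1, mul_comm, mul_neg_geom_sum]
  rw [h]
  exact L.sum_mem fun i _ => L.pow_mem X_mem i

theorem S_mem (p m : ℕ) : S p m ∈ L := by
  have hq : ∀ i, 0 < i → (1 : RatFunc ℚ) - RatFunc.X ^ i ≠ 0 := fun i hi => one_sub_ne hi
  refine L.sum_mem fun j _ => ?_
  rw [D_eq, D_eq]
  exact L.mul_mem (L.mul_mem (L.mul_mem (br_mem _) (L.pow_mem Xi_mem j))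
    (Q278.QDel.D_mem hq L X_mem m j))
    (Q278.QDel.D_mem (Q278.QDel.inv_ne RatFunc.X_ne_zero hq) L Xi_mem m j)

theorem R2_mem (m : ℕ) :
    RatFunc.X * (1 - RatFunc.X ^ (2 * m + 2)) / (1 - RatFunc.X ^ 2) ∈ L := by
  have h2 := one_sub_ne (i := 2) two_pos
  have h : RatFunc.X * (1 - RatFunc.X ^ (2 * m + 2)) / (1 - RatFunc.X ^ 2) =
      RatFunc.X * ∑ i ∈ range (m + 1), ((RatFunc.X : RatFunc ℚ) ^ 2) ^ i := by
    have h4 : (1 - (RatFunc.X : RatFunc ℚ) ^ 2) * ∑ i ∈ range (m + 1),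
        ((RatFunc.X : RatFunc ℚ) ^ 2) ^ i = 1 - RatFunc.X ^ (2 * m + 2) := by
      rw [mul_neg_geom_sum, ← pow_mul]; rfl
    rw [div_eq_iff h2]
    linear_combination (-RatFunc.X) * h4
  rw [h]
  exact L.mul_mem X_mem (L.sum_mem fun i _ => L.pow_mem (L.pow_mem X_mem 2) i)

theorem R1_mem (m : ℕ) :
    RatFunc.X * (1 - (RatFunc.X⁻¹) ^ (2 * m)) / (1 - RatFunc.X ^ 2) ∈ L := by
  have h2 := one_sub_ne (i := 2) two_pos
  have h3 : (RatFunc.X : RatFunc ℚ) ^ (2 * m) * (RatFunc.X⁻¹) ^ (2 * m) = 1 := by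
    rw [← mul_pow, mul_inv_cancel₀ RatFunc.X_ne_zero, one_pow]
  have h : RatFunc.X * (1 - (RatFunc.X⁻¹) ^ (2 * m)) / (1 - RatFunc.X ^ 2) =
      -(RatFunc.X * (RatFunc.X⁻¹) ^ (2 * m) *
        ∑ i ∈ range m, ((RatFunc.X : RatFunc ℚ) ^ 2) ^ i) := by
    rw [div_eq_iff h2]
    have h4 : (1 - (RatFunc.X : RatFunc ℚ) ^ 2) * ∑ i ∈ range m, ((RatFunc.X : RatFunc ℚ) ^ 2) ^ i =
        1 - RatFunc.X ^ (2 * m) := by rw [mul_neg_geom_sum, ← pow_mul]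
    linear_combination (RatFunc.X * (RatFunc.X⁻¹) ^ (2 * m)) * h4 - RatFunc.X * h3
  rw [h]
  exact L.neg_mem (L.mul_mem (L.mul_mem X_mem (L.pow_mem Xi_mem _))
    (L.sum_mem fun i _ => L.pow_mem (L.pow_mem X_mem 2) i))

/-- **Theorem.** For every odd prime `p` and every positive integer `m`,
`S_p(m) ≡ q (1 - q^(-2m)) / (1 - q^2)` if `p ∣ m`, `S_p(m) ≡ q (1 - q^(2m+2)) / (1 - q^2)` if
`p ∣ m + 1`, and `S_p(m) ≡ 0` if `p ∤ m (m + 1)`, modulo `[p]²` in `ℤ[q, 1/q]`. -/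
theorem result (p : ℕ) (hp : p.Prime) (hp2 : p ≠ 2) (m : ℕ) (hm : 1 ≤ m) :
    (p ∣ m → Cong p (S p m)
      (RatFunc.X * (1 - (RatFunc.X⁻¹) ^ (2 * m)) / (1 - RatFunc.X ^ 2))) ∧
    (p ∣ m + 1 → Cong p (S p m)
      (RatFunc.X * (1 - RatFunc.X ^ (2 * m + 2)) / (1 - RatFunc.X ^ 2))) ∧
    (¬ p ∣ m * (m + 1) → Cong p (S p m) 0) := by
  have hζ : IsPrimitiveRoot (Complex.exp (2 * Real.pi * Complex.I / p)) p :=
    Complex.isPrimitiveRoot_exp p hp.ne_zero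
  have hc : Q278.Laurent.φ (Polynomial.cyclotomic p ℤ) = br p := Q278.Laurent.φ_cyc hp
  refine ⟨?_, ?_, ?_⟩
  · rintro ⟨t, rfl⟩
    have ht : 0 < t := by
      rcases Nat.eq_zero_or_pos t with h | h
      · subst h; omega
      · exact h
    refine ⟨S_mem _ _, R1_mem _, ?_⟩
    have h := Q278.QDel.case1 hp hp2 hζ ht
    rw [← S_eq] at h
    obtain ⟨T, hT, e⟩ := Q278.Laurent.dvd_of_mem hp.pos hζ (L.sub_mem (S_mem _ _) (R1_mem _)) h
    rw [hc] at e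
    exact ⟨T, hT, e⟩
  · rintro ⟨t, ht⟩
    have ht' : 0 < t := by
      rcases Nat.eq_zero_or_pos t with h | h
      · subst h; omega
      · exact h
    refine ⟨S_mem _ _, R2_mem _, ?_⟩
    have h := Q278.QDel.case2 hp hp2 hζ ht' ht
    rw [← S_eq] at h
    obtain ⟨T, hT, e⟩ := Q278.Laurent.dvd_of_mem hp.pos hζ (L.sub_mem (S_mem _ _) (R2_mem _)) h
    rw [hc] at e
    exact ⟨T, hT, e⟩
  · intro h0
    refine ⟨S_mem _ _, L.zero_mem, ?_⟩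
    have h := Q278.QDel.case3 hp hp2 hζ m h0
    rw [← S_eq] at h
    obtain ⟨T, hT, e⟩ := Q278.Laurent.dvd_of_mem hp.pos hζ (S_mem _ _) h
    rw [hc] at e
    exact ⟨T, hT, by rw [sub_zero]; exact e⟩

end Pool.Agent.Results.MP_c68aab_nt.Full
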